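import Pool.Agent.Helper14.TK.StA

/-!
# Project T3K, part A, module B9E: level 9, even half

A symbol `K` of level `9` with `K∘W ≈ -K`, `K∘* ≈ K` is `-u ψ - ψ` for a symbol `ψ` of level `3`. Here `ψ` depends only
on the class of the cusp under `Γ₀(3)`, and `K` and `-u ψ - ψ` agree at the cusps of `Γ₀(9)`. The descent is the one of
module BSE3 (Pool/Agent/Helper80/WK3/M_Bse3.lean).
-/

set_option autoImplicit false

namespace Pool.Agent.Helper94.TA

open Pool.Agent.Helper14.TK Pool.Agent.Helper14.T3 Pool.Agent.Helper14.CV Pool.Agent.Helper14.W3 Pool.Agent.Helper78.W3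

/-- Descent: a homogeneous even potential invariant under the parabolic generators at the cusps
`∞`, `0`, `1/3` and with equal values at these cusps is constant. -/
private theorem descent (K : ℤ → ℤ → ℂ) (κ : ℂ) (hH : Homog K)
    (h1 : ∀ p q : ℤ, (p ≠ 0 ∨ q ≠ 0) → K (p + q) q = K p q)
    (h2 : ∀ p q : ℤ, (p ≠ 0 ∨ q ≠ 0) → K p (9 * p + q) = K p q)
    (h3 : ∀ p q : ℤ, (p ≠ 0 ∨ q ≠ 0) → K (-2 * p + q) (-9 * p + 4 * q) = K p q)
    (h4 : ∀ p q : ℤ, (p ≠ 0 ∨ q ≠ 0) → K (-p) q = K p q)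
    (k1 : K 1 0 = κ) (k2 : K 0 1 = κ) (k3 : K 1 3 = κ) :
    ∀ N : ℕ, ∀ p q : ℤ, q.natAbs ≤ N → (p ≠ 0 ∨ q ≠ 0) → K p q = κ := by
  have hT : ∀ (k : ℕ) (p q : ℤ), (p ≠ 0 ∨ q ≠ 0) → q ≠ 0 → K (p + k * q) q = K p q := by
    intro k
    induction k with
    | zero => intro p q _ _; simp
    | succ k ih =>
      intro p q hpq hq
      have e : p + ((k + 1 : ℕ) : ℤ) * q = (p + k * q) + q := by push_cast; ring
      rw [e, h1 _ _ (Or.inr hq), ih p q hpq hq]
  have hneg : ∀ p q : ℤ, (p ≠ 0 ∨ q ≠ 0) → K (-p) (-q) = K p q := by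
    intro p q hpq
    have := hH (-1) p q (by norm_num) hpq
    simpa using this
  have h2' : ∀ p q : ℤ, (p ≠ 0 ∨ q ≠ 0) → K p (q - 9 * p) = K p q := by
    intro p q hpq
    have := h2 p (q - 9 * p) (by omega)
    rw [add_sub_cancel] at this
    exact this.symm
  have h3' : ∀ p q : ℤ, (p ≠ 0 ∨ q ≠ 0) → K (4 * p - q) (9 * p - 2 * q) = K p q := by
    intro p q hpq
    have := h3 (4 * p - q) (9 * p - 2 * q) (by omega)
    have e1 : -2 * (4 * p - q) + (9 * p - 2 * q) = p := by ring
    have e2 : -9 * (4 * p - q) + 4 * (9 * p - 2 * q) = q := by ring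
    rw [e1, e2] at this
    exact this.symm
  intro N
  induction N with
  | zero =>
    intro p q h hpq
    have hq : q = 0 := by omega
    subst hq
    have hp : p ≠ 0 := by omega
    have := hH p 1 0 hp (Or.inl one_ne_zero)
    rw [mul_zero, mul_one] at this
    rw [this, k1]
  | succ N ih =>
    -- the reduced case
    have hred : ∀ r q : ℤ, 0 < q → 0 ≤ r → 2 * r ≤ q → q.natAbs ≤ N + 1 → K r q = κ := by
      intro r q hq hr hrq hN
      by_cases hr0 : r = 0
      · subst hr0
        have := hH q 0 1 (by omega) (Or.inr one_ne_zero)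
        rw [mul_zero, mul_one] at this
        rw [this, k2]
      rcases lt_trichotomy (3 * r) q with hlt | heq | hgt
      · by_cases h9 : 9 * r < 2 * q
        · rw [← h2' r q (by omega)]
          exact ih _ _ (by omega) (by omega)
        · rw [← h3' r q (by omega)]
          exact ih _ _ (by omega) (by omega)
      · have := hH r 1 3 hr0 (Or.inl one_ne_zero)
        rw [mul_one, mul_comm r 3, heq] at this
        rw [this, k3]
      · rw [← h3 r q (by omega)]
        exact ih _ _ (by omega) (by omega)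
    -- positive denominators
    have hpos : ∀ p q : ℤ, 0 < q → 0 ≤ p → q.natAbs ≤ N + 1 → K p q = κ := by
      intro p q hq hp hN
      have hm0 : 0 ≤ p % q := Int.emod_nonneg p (by omega)
      have hm1 : p % q < q := Int.emod_lt_of_pos p hq
      have hd0 : 0 ≤ p / q := Int.ediv_nonneg hp hq.le
      have e : K p q = K (p % q) q := by
        have := hT (p / q).toNat (p % q) q (by omega) (by omega)
        rw [Int.toNat_of_nonneg hd0] at this
        have e2 : p % q + p / q * q = p := by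
          have := Int.emod_add_mul_ediv p q
          linarith [mul_comm (p / q) q]
        rw [e2] at this
        exact this
      rw [e]
      by_cases hs : 2 * (p % q) ≤ q
      · exact hred _ _ hq hm0 hs hN
      · rw [← h4 _ _ (by omega), ← h1 _ _ (by omega)]
        exact hred _ _ hq (by omega) (by omega) hN
    have hpos2 : ∀ p q : ℤ, 0 < q → q.natAbs ≤ N + 1 → K p q = κ := by
      intro p q hq hN
      by_cases hp : 0 ≤ p
      · exact hpos p q hq hp hN
      · rw [← h4 _ _ (by omega)]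
        exact hpos _ q hq (by omega) hN
    intro p q hN hpq
    rcases lt_trichotomy q 0 with hq | hq | hq
    · rw [← hneg p q hpq]
      exact hpos2 _ _ (by omega) (by omega)
    · exact ih p q (by omega) hpq
    · exact hpos2 p q hq hN

/-- the cusp `p/q` is equivalent to `∞` under `Γ₀(3)` -/
private def Inf (p q : ℤ) : Prop := ∀ n : ℕ, (3 : ℤ) ^ n ∣ p → (3 : ℤ) ^ n ∣ q → (3 : ℤ) ^ (n + 1) ∣ q

private theorem inf_half {a b c d : ℤ} (h : a * d - b * c = 1) (hc : (3 : ℤ) ∣ c) {p q : ℤ} (hI : Inf p q) :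
    Inf (a * p + b * q) (c * p + d * q) := by
  intro n h1 h2
  have hp : (3 : ℤ) ^ n ∣ p := by
    have e : p = d * (a * p + b * q) - b * (c * p + d * q) := by linear_combination (-p) * h
    rw [e]
    exact dvd_sub (Dvd.dvd.mul_left h1 _) (Dvd.dvd.mul_left h2 _)
  have hq : (3 : ℤ) ^ n ∣ q := by
    have e : q = a * (c * p + d * q) - c * (a * p + b * q) := by linear_combination (-q) * h
    rw [e]
    exact dvd_sub (Dvd.dvd.mul_left h2 _) (Dvd.dvd.mul_left h1 _)
  refine dvd_add ?_ (Dvd.dvd.mul_left (hI n hp hq) _)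
  rw [pow_succ, mul_comm]
  exact mul_dvd_mul hc hp

private theorem inf_iff {a b c d : ℤ} (h : a * d - b * c = 1) (hc : (3 : ℤ) ∣ c) (p q : ℤ) :
    Inf (a * p + b * q) (c * p + d * q) ↔ Inf p q := by
  refine ⟨fun hI => ?_, inf_half h hc⟩
  have h' := inf_half (a := d) (b := -b) (c := -c) (d := a) (by linear_combination h) ((dvd_neg).2 hc) hI
  have e1 : d * (a * p + b * q) + -b * (c * p + d * q) = p := by linear_combination p * h
  have e2 : -c * (a * p + b * q) + a * (c * p + d * q) = q := by linear_combination q * h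
  rwa [e1, e2] at h'

private theorem inf_neg (p q : ℤ) : Inf (-p) q ↔ Inf p q := by
  unfold Inf
  simp only [dvd_neg]

private theorem inf_homog (k p q : ℤ) (hk : k ≠ 0) : Inf (k * p) (k * q) ↔ Inf p q := by
  obtain ⟨e, k', hk', rfl⟩ : ∃ (e : ℕ) (k' : ℤ), ¬ (3 : ℤ) ∣ k' ∧ k = 3 ^ e * k' := by
    have hfin : FiniteMultiplicity (3 : ℤ) k := Int.finiteMultiplicity_iff.2 ⟨by decide, hk⟩
    obtain ⟨c, hc, hc'⟩ := hfin.exists_eq_pow_mul_and_not_dvd
    exact ⟨_, c, hc', hc⟩
  have h3 : Prime (3 : ℤ) := Int.prime_three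
  have key : ∀ (m : ℕ) (x : ℤ), (3 : ℤ) ^ (e + m) ∣ 3 ^ e * k' * x ↔ (3 : ℤ) ^ m ∣ x := by
    intro m x
    rw [pow_add, mul_assoc, mul_dvd_mul_iff_left (pow_ne_zero _ (by norm_num))]
    refine ⟨fun h => ?_, fun h => Dvd.dvd.mul_left h _⟩
    exact (IsCoprime.pow_left ((Prime.coprime_iff_not_dvd h3).2 hk')).dvd_of_dvd_mul_left h
  constructor
  · intro h n h1 h2
    have := h (e + n) ((key n p).2 h1) ((key n q).2 h2)
    rw [add_assoc] at this
    exact (key (n + 1) q).1 this
  · intro h n h1 h2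
    by_cases hn : e ≤ n
    · obtain ⟨m, rfl⟩ := Nat.exists_eq_add_of_le hn
      rw [add_assoc]
      exact (key (m + 1) q).2 (h m ((key m p).1 h1) ((key m q).1 h2))
    · have : (3 : ℤ) ^ (n + 1) ∣ 3 ^ e := pow_dvd_pow _ (by omega)
      exact Dvd.dvd.mul_right (Dvd.dvd.mul_right this _) _

open Classical in
/-- the potential with the value `α` at the cusps equivalent to `∞` under `Γ₀(3)`, `β` at the others -/
private noncomputable def psi (α β : ℂ) (p q : ℤ) : ℂ := if Inf p q then α else β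

private theorem psi_congr (α β : ℂ) {p q p' q' : ℤ} (h : Inf p q ↔ Inf p' q') : psi α β p q = psi α β p' q' := by
  unfold psi
  by_cases k : Inf p q
  · rw [if_pos k, if_pos (h.1 k)]
  · rw [if_neg k, if_neg (fun k' => k (h.2 k'))]

private theorem psi_sym (α β : ℂ) : Sym3 0 1 (psi α β) := by
  refine ⟨fun k p q hk _ => psi_congr α β (inf_homog k p q hk), fun a b c d h _ hc => ⟨0, fun p q _ => ?_⟩⟩
  rw [add_zero]
  exact psi_congr α β (inf_iff h (by simpa using hc) p q)

private theorem psi10 (α β : ℂ) : psi α β 1 0 = α := by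
  unfold psi
  rw [if_pos]
  exact fun n _ _ => dvd_zero _

private theorem psi30 (α β : ℂ) : psi α β 3 0 = α := by
  unfold psi
  rw [if_pos]
  exact fun n _ _ => dvd_zero _

private theorem psi01 (α β : ℂ) : psi α β 0 1 = β := by
  unfold psi
  rw [if_neg]
  intro h
  have := h 0 (dvd_zero _) (by simp)
  revert this
  norm_num

private theorem psi33 (α β : ℂ) : psi α β 3 3 = β := by
  unfold psi
  rw [if_neg]
  intro h
  have := h 1 (by norm_num) (by norm_num)
  revert this
  norm_num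

private theorem psi13 (α β : ℂ) : psi α β 1 3 = α := by
  unfold psi
  rw [if_pos]
  intro n h1 _
  have hn : n = 0 := by
    by_contra hn
    have h2 : (3 : ℤ) ∣ 1 := dvd_trans (dvd_pow_self 3 hn) h1
    revert h2
    norm_num
  subst hn
  norm_num

/-- B9E: level `9`, even half. -/
theorem hB9E : StB9E := by
  intro K hS hW hst
  have h1 : ∀ p q : ℤ, (p ≠ 0 ∨ q ≠ 0) → K (p + q) q = K p q := by
    intro p q hpq
    obtain ⟨c, hc⟩ := hS.2 1 1 0 1 (by norm_num) (by norm_num) (by norm_num)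
    have e1 := hc 1 0 (Or.inl one_ne_zero)
    have e2 := hc p q hpq
    simp only [act] at e1 e2
    norm_num at e1 e2
    rw [e2, e1, add_zero]
  have h2 : ∀ p q : ℤ, (p ≠ 0 ∨ q ≠ 0) → K p (9 * p + q) = K p q := by
    intro p q hpq
    obtain ⟨c, hc⟩ := hS.2 1 0 9 1 (by norm_num) (by norm_num) (by norm_num)
    have e1 := hc 0 1 (Or.inr one_ne_zero)
    have e2 := hc p q hpq
    simp only [act] at e1 e2
    norm_num at e1 e2
    rw [e2, e1, add_zero]
  have h3 : ∀ p q : ℤ, (p ≠ 0 ∨ q ≠ 0) → K (-2 * p + q) (-9 * p + 4 * q) = K p q := by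
    intro p q hpq
    obtain ⟨c, hc⟩ := hS.2 (-2) 1 (-9) 4 (by norm_num) (by norm_num) (by norm_num)
    have e1 := hc 1 3 (Or.inl one_ne_zero)
    have e2 := hc p q hpq
    simp only [act, one_mul] at e1 e2
    norm_num at e1
    rw [e2, e1, add_zero]
  have h4 : ∀ p q : ℤ, (p ≠ 0 ∨ q ≠ 0) → K (-p) q = K p q := by
    intro p q hpq
    obtain ⟨c, hc⟩ := hst
    have e1 := hc 1 0 (Or.inl one_ne_zero)
    have e2 := hc p q hpq
    simp only [act] at e1 e2
    have e3 := hS.1 (-1) 1 0 (by norm_num) (Or.inl one_ne_zero)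
    norm_num at e1 e2 e3
    rw [e3] at e1
    have hc0 : c = 0 := by linear_combination -e1
    rw [e2, hc0, add_zero]
  have k3 : 2 * K 1 3 = K 1 0 + K 0 1 := by
    obtain ⟨c, hc⟩ := hW
    have e1 := hc 1 0 (Or.inl one_ne_zero)
    have e2 := hc 1 3 (Or.inl one_ne_zero)
    simp only [act, Pi.neg_apply] at e1 e2
    norm_num at e1 e2
    have e3 := hS.1 9 0 1 (by norm_num) (Or.inr one_ne_zero)
    have e4 := hS.1 3 (-1) 3 (by norm_num) (Or.inl (by norm_num))
    have e5 := h4 1 3 (Or.inl one_ne_zero)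
    norm_num at e3 e4 e5
    have e7 : K 1 3 = -K 1 3 + c := by
      rw [← e2, e4, e5]
    have e8 : K 0 1 = -K 1 0 + c := by
      rw [← e1, e3]
    linear_combination e7 - e8
  -- the potential `ψ`
  obtain ⟨ψ, hψ⟩ : ∃ ψ, ψ = psi (-(K 1 0 / 2)) (-(K 0 1 / 2)) := ⟨_, rfl⟩
  have hcg : ∀ {p q p' q' : ℤ}, (Inf p q ↔ Inf p' q') → ψ p q = ψ p' q' := by
    intro p q p' q' h
    rw [hψ]
    exact psi_congr _ _ h
  have s1 : Sym3 0 1 ψ := by rw [hψ]; exact psi_sym _ _
  have inv : ∀ a b c d : ℤ, a * d - b * c = 1 → (3 : ℤ) ∣ c → ∀ p q : ℤ,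
      ψ (a * p + b * q) (c * p + d * q) = ψ p q := fun a b c d h hc p q => hcg (inf_iff h hc p q)
  refine ⟨ψ, s1, 0, fun p q hpq => ?_⟩
  have key := descent (fun p q => K p q - (-ψ (3 * p) q - ψ p q)) 0 ?_ ?_ ?_ ?_ ?_ ?_ ?_ ?_ q.natAbs p q le_rfl hpq
  · simp only [act, Pi.sub_apply, Pi.neg_apply, zero_mul, one_mul, add_zero, zero_add]
    linear_combination -key
  · intro k p q hk hpq
    have e1 := hS.1 k p q hk hpq
    have e2 := s1.1 k p q hk hpq
    have e3 := s1.1 k (3 * p) q hk (by omega)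
    have e4 : 3 * (k * p) = k * (3 * p) := by ring
    simp only [e4, e1, e2, e3]
  · intro p q hpq
    have e1 := h1 p q hpq
    have e2 := inv 1 1 0 1 (by norm_num) (by norm_num) p q
    have e3 := inv 1 3 0 1 (by norm_num) (by norm_num) (3 * p) q
    have e4 : 3 * (p + q) = 1 * (3 * p) + 3 * q := by ring
    have e5 : 0 * (3 * p) + 1 * q = q := by ring
    have e6 : 0 * p + 1 * q = q := by ring
    have e7 : 1 * p + 1 * q = p + q := by ring
    rw [e5] at e3
    rw [e6, e7] at e2
    simp only [e4, e1, e2, e3]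
  · intro p q hpq
    have e1 := h2 p q hpq
    have e2 := inv 1 0 9 1 (by norm_num) (by norm_num) p q
    have e3 := inv 1 0 3 1 (by norm_num) (by norm_num) (3 * p) q
    have e4 : 1 * p + 0 * q = p := by ring
    have e5 : 9 * p + 1 * q = 9 * p + q := by ring
    have e6 : 1 * (3 * p) + 0 * q = 3 * p := by ring
    have e7 : 3 * (3 * p) + 1 * q = 9 * p + q := by ring
    rw [e4, e5] at e2
    rw [e6, e7] at e3
    simp only [e1, e2, e3]
  · intro p q hpq
    have e1 := h3 p q hpq
    have e2 := inv (-2) 1 (-9) 4 (by norm_num) (by norm_num) p q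
    have e3 := inv (-2) 3 (-3) 4 (by norm_num) (by norm_num) (3 * p) q
    have e4 : -2 * p + 1 * q = -2 * p + q := by ring
    have e6 : -2 * (3 * p) + 3 * q = 3 * (-2 * p + q) := by ring
    have e7 : -3 * (3 * p) + 4 * q = -9 * p + 4 * q := by ring
    rw [e4] at e2
    rw [e6, e7] at e3
    simp only [e1, e2, e3]
  · intro p q hpq
    have e1 := h4 p q hpq
    have e2 : ψ (-p) q = ψ p q := hcg (inf_neg p q)
    have e3 : ψ (-(3 * p)) q = ψ (3 * p) q := hcg (inf_neg (3 * p) q)
    have e4 : 3 * -p = -(3 * p) := by ring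
    simp only [e4, e1, e2, e3]
  · simp only [mul_one]
    rw [hψ, psi30, psi10]
    ring
  · simp only [mul_zero]
    rw [hψ, psi01]
    ring
  · simp only [mul_one]
    rw [hψ, psi33, psi13]
    linear_combination (1 / 2 : ℂ) * k3

end Pool.Agent.Helper94.TA
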